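import Mathlib
import Pool.Agent.Helper40.Conv.Main
import Pool.Agent.Helper40.Conv.Cyc

open Pool.Agent.Helper40.Mob

namespace Pool.Agent.Results.MP_7a8f48_an.ConvergenceGroup

universe u v w

/-- Moebius disjointness for automorphisms of twisted reduced group C*-algebras of convergence
groups.  The group `G` acts by homeomorphisms on the compact metric space `M` as a convergence group,
the stabilizers of points are commutative, and commutation is a transitive relation on nontrivial
elements.  `A` is a reduced C*-algebra of `G` twisted by an arbitrary 2-cocycle: it is the closed span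
of unitaries `U g` with `U g * U h` a multiple of `U (g * h)`, and it has a state `τ` with faithful GNS
representation and `τ (U g) = 0` for `g ≠ 1`.  The endomorphism `α` maps `U g` to a multiple of
`U (θ g)` for an automorphism `θ` of `G` such that every nontrivial `c` commuting with some `θ^d (c)`,
`d ≥ 1`, has cyclic centralizer or becomes trivial under iterated differences
`x ↦ θ^(dm) (x) x⁻¹` for some `m ≥ 1`.  Then all elements of `A` are Moebius disjoint along `α`, with
all twists. -/
theorem result (G : Type v) [Group G] (M : Type w) [MetricSpace M] [CompactSpace M] [MulAction G M]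
    (hcont : ∀ g : G, Continuous (fun m : M => g • m)) (hconv : IsConvergenceAction G M)
    (hstab : ∀ (m : M) (g h : G), g • m = m → h • m = m → Commute g h)
    (hCT : ∀ a b c : G, b ≠ 1 → Commute a b → Commute b c → Commute a c)
    (A : Type u) [CStarAlgebra A] (U : G → unitary A)
    (hU : ∀ g h, ∃ c : ℂ, (U g : A) * (U h : A) = c • (U (g * h) : A))
    (hspan : ∀ a : A, a ∈ closure ((Submodule.span ℂ (Set.range fun g => (U g : A)) :
      Submodule ℂ A) : Set A))
    (τ : A →L[ℂ] ℂ) (hτ : IsState τ) (hτU : ∀ g, g ≠ 1 → τ (U g : A) = 0)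
    (hfaith : ∀ a, (∀ x y, τ (x * a * y) = 0) → a = 0)
    (θ : G ≃* G) (hθ : ∀ (d : ℕ) (c : G), 1 ≤ d → c ≠ 1 → Commute (θ^[d] c) c →
      IsCyclic (Subgroup.centralizer ({c} : Set G)) ∨
        ∃ m : ℕ, 1 ≤ m ∧ ∃ k : ℕ, (gdiff θ (d * m))^[k] c = 1)
    (α : A →⋆ₐ[ℂ] A) (hα : ∀ g, ∃ c : ℂ, α (U g : A) = c • (U (θ g) : A)) :
    ∀ a : A, TwistedDisjoint α a :=
  fun a => Pool.Agent.Helper40.Conv.main_conv hcont hconv hstab hCT U hU τ hτ hτU hfaith hspan θ
    (fun d c hd h => Pool.Agent.Helper40.Conv.cyc_cond hCT θ hθ d c hd h) α hα a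

end Pool.Agent.Results.MP_7a8f48_an.ConvergenceGroup
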